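import Pool.Agent.Work.MP_f714fc_ag.Abs.SerreDef

/-!
MP_f714fc_ag, definitions for abelian categories: Serre duality of an object and its twist, fully
faithful exact functors between bounded derived categories, sheaves generated by sections.
-/

open CategoryTheory CategoryTheory.Abelian CategoryTheory.Limits

attribute [-instance] CategoryTheory.catToReflQuiver

universe w v u t

namespace Fdim

/-- Serre duality for the objects A and M (in the application M is the tensor product of A with
the canonical bundle): there is a functional tr on Ext^n(A, M) such that for all B the Yoneda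
pairings Ext^p(A, B) x Ext^q(B, M) -> Ext^n(A, M) -> k, p + q = n, are perfect, and
Ext^p(A, B) = 0 for p > n. -/
def SerreDual (k : Type t) [Field k] {C : Type u} [Category.{v} C] [Abelian C] [Linear k C]
    [HasExt.{w} C] (n : ℕ) (A M : C) : Prop :=
  ∃ tr : Ext.{w} A M n →ₗ[k] k, ∀ B : C,
    (∀ (p q : ℕ) (h : p + q = n), (serrePairing k tr B p q h).IsPerfPair) ∧
      ∀ p : ℕ, n < p → Subsingleton (Ext.{w} A B p)

/-- There is a fully faithful exact functor from S to T.  If lin is true, the functor is required
to be linear over k. -/
def FullyFaithfulExact (k : Type t) [Field k] (lin : Prop) (S : Type u) [Category.{v} S]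
    [Preadditive S] [HasZeroObject S] [HasShift S ℤ] [∀ n : ℤ, (shiftFunctor S n).Additive]
    [Pretriangulated S] [Linear k S] (T : Type u) [Category.{v} T]
    [Preadditive T] [HasZeroObject T] [HasShift T ℤ] [∀ n : ℤ, (shiftFunctor T n).Additive]
    [Pretriangulated T] [Linear k T] : Prop :=
  ∃ (Φ : S ⥤ T) (_ : Φ.CommShift ℤ) (_ : Φ.Additive),
    Φ.IsTriangulated ∧ (lin → Φ.Linear k) ∧ Φ.Full ∧ Φ.Faithful

/-- There is a fully faithful exact functor from the bounded derived category of C to the bounded
derived category of D.  If lin is true, the functor is required to be linear over k. -/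
def DbEmbeds (k : Type t) [Field k] (lin : Prop) (C : Type u) [Category.{v} C] [Abelian C]
    [Linear k C] [HasDerivedCategory.{w} C] (D : Type u) [Category.{v} D] [Abelian D]
    [Linear k D] [HasDerivedCategory.{w} D] : Prop :=
  FullyFaithfulExact k lin (DerivedCategory.Bounded C) (DerivedCategory.Bounded D)

end Fdim
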